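import Pool.Agent.H37.UMD.Stmts

set_option autoImplicit false

open MeasureTheory ProbabilityTheory

namespace Pool.UMD

theorem sCnt : SCnt := by
  intro f M hf hM A
  unfold mu
  have hap : Continuous (fun z : ℝ × ℝ => A.ap z) := by
    unfold Mat.ap
    fun_prop
  refine MeasureTheory.continuous_of_dominated (bound := fun _ => M) ?_ ?_ ?_ ?_
  · intro a
    exact (hf.comp (continuous_const.add hap)).aestronglyMeasurable
  · intro a
    exact Filter.Eventually.of_forall (fun z => by simpa [Real.norm_eq_abs] using hM _)
  · exact integrable_const M
  · exact Filter.Eventually.of_forall (fun z => hf.comp (continuous_id.add continuous_const))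

end Pool.UMD
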