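import Pool.Agent.H37.UMD.Stmts

set_option autoImplicit false

open MeasureTheory ProbabilityTheory

namespace Pool.UMD

theorem sDet : SDet := by
  intro A e he
  refine ⟨?_, ?_⟩
  · simp only [Mat.det, Mat.con]
    have h1 : e.2 ^ 2 = 1 - e.1 ^ 2 := by linarith
    linear_combination (- (A.a * A.d - A.b * A.c) / 2) * he
  · intro z
    refine ⟨rap e z, ?_, ?_⟩
    · unfold nm
      apply Real.sqrt_le_sqrt
      simp only [rap, dot]
      have h2 : (z.1 - (e.1 * z.1 + e.2 * z.2) / 2 * e.1) ^ 2 +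
          (z.2 - (e.1 * z.1 + e.2 * z.2) / 2 * e.2) ^ 2 =
          z.1 ^ 2 + z.2 ^ 2 - 3 / 4 * (e.1 * z.1 + e.2 * z.2) ^ 2 := by
        linear_combination ((e.1 * z.1 + e.2 * z.2) ^ 2 / 4) * he
      rw [h2]
      nlinarith [sq_nonneg (e.1 * z.1 + e.2 * z.2)]
    · simp only [Mat.ap, Mat.con, rap, dot]
      apply Prod.ext
      · simp only; ring
      · simp only; ring

end Pool.UMD
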