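import Pool.Agent.H37.UMD.Stmts

set_option autoImplicit false

open MeasureTheory ProbabilityTheory

namespace Pool.UMD

theorem JEN_cs (u v x y : ℝ) : u * x + v * y ≤ √(u ^ 2 + v ^ 2) * √(x ^ 2 + y ^ 2) := by
  rw [← Real.sqrt_mul (by positivity)]
  apply Real.le_sqrt_of_sq_le
  nlinarith [sq_nonneg (u * y - v * x)]

theorem sJen : SJen := by
  intro β₁ β₂ L X _ ν _ q B hq hB
  unfold NL nm
  simp only
  set α : ℝ := L ^ β₁ with hα
  set γ : ℝ := L ^ β₂ with hγ
  have hq1 : Measurable (fun x => (q x).1) := measurable_fst.comp hq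
  have hq2 : Measurable (fun x => (q x).2) := measurable_snd.comp hq
  have i1 : Integrable (fun x => (q x).1) ν := by
    refine Integrable.of_bound hq1.aestronglyMeasurable B (Filter.Eventually.of_forall ?_)
    intro x
    simpa [Real.norm_eq_abs] using (hB x).1
  have i2 : Integrable (fun x => (q x).2) ν := by
    refine Integrable.of_bound hq2.aestronglyMeasurable B (Filter.Eventually.of_forall ?_)
    intro x
    simpa [Real.norm_eq_abs] using (hB x).2
  have i3 : Integrable (fun x => √((α * (q x).1) ^ 2 + (γ * (q x).2) ^ 2)) ν := by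
    refine Integrable.mono' ((i1.norm.const_mul |α|).add (i2.norm.const_mul |γ|)) ?_ ?_
    · apply Measurable.aestronglyMeasurable
      exact (((hq1.const_mul α).pow_const 2).add ((hq2.const_mul γ).pow_const 2)).sqrt
    · refine Filter.Eventually.of_forall ?_
      intro x
      rw [Real.norm_eq_abs, abs_of_nonneg (Real.sqrt_nonneg _)]
      simp only [Pi.add_apply, Real.norm_eq_abs, ← abs_mul]
      rw [Real.sqrt_le_left (by positivity)]
      rw [← sq_abs (α * (q x).1), ← sq_abs (γ * (q x).2)]
      nlinarith [abs_nonneg (α * (q x).1), abs_nonneg (γ * (q x).2),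
        mul_nonneg (abs_nonneg (α * (q x).1)) (abs_nonneg (γ * (q x).2))]
  set P : ℝ := α * ∫ x, (q x).1 ∂ν with hP
  set Q : ℝ := γ * ∫ x, (q x).2 ∂ν with hQ
  set N : ℝ := √(P ^ 2 + Q ^ 2) with hN
  have hN0 : 0 ≤ N := Real.sqrt_nonneg _
  have hNN : N * N = P ^ 2 + Q ^ 2 := Real.mul_self_sqrt (by positivity)
  have hI0 : 0 ≤ ∫ x, √((α * (q x).1) ^ 2 + (γ * (q x).2) ^ 2) ∂ν :=
    integral_nonneg (fun x => Real.sqrt_nonneg _)
  rcases eq_or_lt_of_le hN0 with h0 | h0
  · rw [← h0]; exact hI0
  · have key : N * N ≤ N * ∫ x, √((α * (q x).1) ^ 2 + (γ * (q x).2) ^ 2) ∂ν := by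
      have e1 : N * N = ∫ x, (P * (α * (q x).1) + Q * (γ * (q x).2)) ∂ν := by
        rw [integral_add ((i1.const_mul α).const_mul P) ((i2.const_mul γ).const_mul Q)]
        rw [integral_const_mul, integral_const_mul, integral_const_mul, integral_const_mul, hNN]
        rw [← hP, ← hQ]; ring
      rw [e1, ← integral_const_mul]
      apply integral_mono
      · exact ((i1.const_mul α).const_mul P).add ((i2.const_mul γ).const_mul Q)
      · exact i3.const_mul N
      · intro x
        exact JEN_cs P Q _ _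
    exact le_of_mul_le_mul_left key h0

end Pool.UMD
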