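import Pool.Agent.H37.UMD.Stmts2

set_option autoImplicit false

open MeasureTheory ProbabilityTheory Finset

namespace Pool.UMD

theorem LIN_int {α : Type} [MeasurableSpace α] (μ : Measure α) (m : ℕ) (K : ℝ) (w : ℕ → ℕ → ℝ)
    (φ : ℕ → ℕ → α → ℝ) (hφ : ∀ i j, Integrable (φ i j) μ) :
    ∫ x, pr m w (fun i j => φ i j x) / √K ∂μ = pr m w (fun i j => ∫ x, φ i j x ∂μ) / √K := by
  unfold pr
  rw [integral_div, integral_finsetSum]
  · congr 1
    apply Finset.sum_congr rfl
    intro i _
    rw [integral_finsetSum]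
    · apply Finset.sum_congr rfl
      intro j _
      rw [integral_const_mul]
    · intro j _
      exact (hφ i j).const_mul _
  · intro i _
    apply integrable_finsetSum
    intro j _
    exact (hφ i j).const_mul _

theorem LIN_iq (h : SFol) (m : ℕ) (hm : 1 ≤ m) (i j : ℕ) :
    Measurable (iq m i j) ∧ ∀ x, |iq m i j x| ≤ 1 := by
  constructor
  · have := ((h m hm).2.2 (fun a b => if a = i ∧ b = j then 1 else 0)).1
    exact this
  · intro x
    unfold iq
    split_ifs <;> simp

theorem LIN_wf (h : SFol) (m : ℕ) (hm : 1 ≤ m) (K : ℝ) (w : ℕ → ℕ → ℝ) (x : ℝ × ℝ) :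
    Wf m K w x = pr m w (fun i j => iq m i j x) / √K := by
  have h1 := (h m hm).1 ⌊x.1⌋
  have h2 := (h m hm).1 ⌊x.2⌋
  unfold Wf pr iq
  congr 1
  rw [Finset.sum_eq_single_of_mem (fo m ⌊x.1⌋) (Finset.mem_range.2 h1)]
  · rw [Finset.sum_eq_single_of_mem (fo m ⌊x.2⌋) (Finset.mem_range.2 h2)]
    · simp
    · intro b _ hb
      simp [Ne.symm hb]
  · intro b _ hb
    apply Finset.sum_eq_zero
    intro c _
    simp [Ne.symm hb]

theorem LIN_ap (A : Mat) : Measurable (fun z : ℝ × ℝ => A.ap z) := by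
  have hap : Continuous (fun z : ℝ × ℝ => A.ap z) := by
    unfold Mat.ap
    fun_prop
  exact hap.measurable

theorem LIN_b {α : Type} [MeasurableSpace α] (μ : Measure α) [IsFiniteMeasure μ] (f : α → ℝ)
    (hf : Measurable f) (hb : ∀ x, |f x| ≤ 1) : Integrable f μ := by
  refine Integrable.of_bound hf.aestronglyMeasurable 1 (Filter.Eventually.of_forall ?_)
  intro x
  simpa [Real.norm_eq_abs] using hb x

theorem LIN_g1 : Integrable (fun x : ℝ => x) g1 := by
  have h := memLp_id_gaussianReal (μ := 0) (v := 1) 1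
  have h2 := h.integrable (by norm_num)
  exact h2

theorem LIN_z1 : Integrable (fun z : ℝ × ℝ => z.1) g2 := by
  have := LIN_g1.comp_fst (ν := g1)
  exact this

theorem LIN_z2 : Integrable (fun z : ℝ × ℝ => z.2) g2 := by
  have := LIN_g1.comp_snd (μ := g1)
  exact this

theorem LIN_wt {α : Type} [MeasurableSpace α] (μ : Measure α) [IsFiniteMeasure μ] (h f : α → ℝ)
    (hh : Integrable h μ)
    (hf : Measurable f) (hb : ∀ x, |f x| ≤ 1) : Integrable (fun x => h x * f x) μ := by
  refine hh.mul_bdd (c := 1) hf.aestronglyMeasurable (Filter.Eventually.of_forall ?_)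
  intro x
  simpa [Real.norm_eq_abs] using hb x

theorem LIN_mu (h : SFol) (m : ℕ) (hm : 1 ≤ m) (K : ℝ) (w : ℕ → ℕ → ℝ) (A : Mat) (a : ℝ × ℝ) :
    mu (Wf m K w) a A = pr m w (fun i j => mu (iq m i j) a A) / √K := by
  unfold mu
  rw [← LIN_int]
  · apply integral_congr_ae
    refine Filter.Eventually.of_forall ?_
    intro z
    exact LIN_wf h m hm K w _
  · intro i j
    apply LIN_b
    · exact (LIN_iq h m hm i j).1.comp (measurable_const.add (LIN_ap A))
    · intro z
      exact (LIN_iq h m hm i j).2 _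

theorem LIN_mzg (h : SFol) (m : ℕ) (hm : 1 ≤ m) (K : ℝ) (w : ℕ → ℕ → ℝ) (A : Mat) (a : ℝ × ℝ)
    (c : ℝ × ℝ → ℝ) (hc : Integrable c g2) :
    ∫ z, c z * Wf m K w (a + A.ap z) ∂g2 =
      pr m w (fun i j => ∫ z, c z * iq m i j (a + A.ap z) ∂g2) / √K := by
  rw [← LIN_int]
  · apply integral_congr_ae
    refine Filter.Eventually.of_forall ?_
    intro z
    simp only
    rw [LIN_wf h m hm K w, mul_div_assoc']
    congr 1
    unfold pr
    rw [Finset.mul_sum]
    apply Finset.sum_congr rfl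
    intro i _
    rw [Finset.mul_sum]
    apply Finset.sum_congr rfl
    intro j _
    ring
  · intro i j
    apply LIN_wt
    · exact hc
    · exact (LIN_iq h m hm i j).1.comp (measurable_const.add (LIN_ap A))
    · intro z
      exact (LIN_iq h m hm i j).2 _

theorem LIN_mub (f : ℝ × ℝ → ℝ) (hf : ∀ x, |f x| ≤ 1) (a : ℝ × ℝ) (A : Mat) :
    |mu f a A| ≤ 1 := by
  unfold mu
  have h := norm_integral_le_of_norm_le_const (μ := g2) (f := fun z => f (a + A.ap z)) (C := 1)
    (Filter.Eventually.of_forall (fun z => by simpa [Real.norm_eq_abs] using hf _))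
  simpa [Real.norm_eq_abs] using h

theorem LIN_mum (f : ℝ × ℝ → ℝ) (hf : Measurable f) (a v : ℝ × ℝ) (A : Mat) :
    Measurable (fun t : ℝ => mu f (a + t • v) A) := by
  unfold mu
  have h1 : Measurable (fun q : ℝ × (ℝ × ℝ) => f (a + q.1 • v + A.ap q.2)) := by
    apply hf.comp
    apply Measurable.add
    · apply Measurable.add measurable_const
      exact measurable_fst.smul_const v
    · exact (LIN_ap A).comp measurable_snd
  exact (h1.stronglyMeasurable.integral_prod_right' (ν := g2)).measurable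

theorem LIN_stk (m : ℕ) (K : ℝ) (w : ℕ → ℕ → ℝ) (u : ℕ → ℕ → ℝ → ℝ)
    (hu : ∀ i j, Measurable (u i j)) (hb : ∀ i j t, |u i j t| ≤ 1) (g : ℝ) :
    stk (fun t => pr m w (fun i j => u i j t) / √K) g =
      pr m w (fun i j => stk (u i j) g) / √K := by
  have hi : ∀ i j, Integrable (u i j) g1 := fun i j => LIN_b _ _ (hu i j) (hb i j)
  have h0 : ∫ s, pr m w (fun i j => u i j s) / √K ∂g1 = pr m w (fun i j => ∫ s, u i j s ∂g1) / √K :=
    LIN_int g1 m K w u hi
  have h1 : ∀ t, pr m w (fun i j => u i j t) / √K - pr m w (fun i j => ∫ s, u i j s ∂g1) / √K =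
      pr m w (fun i j => u i j t - ∫ s, u i j s ∂g1) / √K := by
    intro t
    rw [← sub_div]
    congr 1
    unfold pr
    rw [← Finset.sum_sub_distrib]
    apply Finset.sum_congr rfl
    intro i _
    rw [← Finset.sum_sub_distrib]
    apply Finset.sum_congr rfl
    intro j _
    ring
  have h2 : ∀ i j, Integrable (fun t => u i j t - ∫ s, u i j s ∂g1) g1 := by
    intro i j
    exact (hi i j).sub (integrable_const _)
  have h3 : ∀ (c : ℝ) (f : ℕ → ℕ → ℝ), pr m w f / √K / c = pr m w (fun i j => f i j / c) / √K := by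
    intro c f
    rw [div_right_comm]
    congr 1
    unfold pr
    rw [Finset.sum_div]
    apply Finset.sum_congr rfl
    intro i _
    rw [Finset.sum_div]
    apply Finset.sum_congr rfl
    intro j _
    ring
  have h4 : ∀ (f : ℕ → ℕ → ℝ), -(pr m w f / √K) = pr m w (fun i j => - f i j) / √K := by
    intro f
    rw [← neg_div]
    congr 1
    unfold pr
    rw [← Finset.sum_neg_distrib]
    apply Finset.sum_congr rfl
    intro i _
    rw [← Finset.sum_neg_distrib]
    apply Finset.sum_congr rfl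
    intro j _
    ring
  unfold stk
  rw [h0]
  simp only [h1]
  split_ifs with hg
  · rw [LIN_int _ m K w (fun i j t => u i j t - ∫ s, u i j s ∂g1) (fun i j => (h2 i j).integrableOn),
      h3]
  · rw [LIN_int _ m K w (fun i j t => u i j t - ∫ s, u i j s ∂g1) (fun i j => (h2 i j).integrableOn),
      h3, h4]

theorem LIN_mul (m : ℕ) (K c : ℝ) (w f : ℕ → ℕ → ℝ) :
    c * (pr m w f / √K) = pr m w (fun i j => c * f i j) / √K := by
  rw [mul_div_assoc']
  congr 1
  unfold pr
  rw [Finset.mul_sum]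
  apply Finset.sum_congr rfl
  intro i _
  rw [Finset.mul_sum]
  apply Finset.sum_congr rfl
  intro j _
  ring

theorem sLin (h : SFol) : SLin := by
  intro m K w A a hm
  have hmz : ∀ (A : Mat) (a : ℝ × ℝ),
      (mz (Wf m K w) a A).1 = pr m w (fun i j => (mz (iq m i j) a A).1) / √K ∧
      (mz (Wf m K w) a A).2 = pr m w (fun i j => (mz (iq m i j) a A).2) / √K := by
    intro A a
    constructor
    · exact LIN_mzg h m hm K w A a (fun z => z.1) LIN_z1
    · exact LIN_mzg h m hm K w A a (fun z => z.2) LIN_z2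
  refine ⟨LIN_mu h m hm K w A a, (hmz A a).1, (hmz A a).2, ?_⟩
  intro e g
  refine ⟨?_, ?_, ?_⟩
  · unfold xi0
    have h1 : (fun t : ℝ => mu (Wf m K w) (a + t • A.stp e) (A.con e)) =
        fun t : ℝ => pr m w (fun i j => mu (iq m i j) (a + t • A.stp e) (A.con e)) / √K := by
      funext t
      exact LIN_mu h m hm K w _ _
    rw [h1, LIN_stk m K w (fun i j (t : ℝ) => mu (iq m i j) (a + t • A.stp e) (A.con e)) ?_ ?_ g, LIN_mul]
    · intro i j
      exact LIN_mum _ (LIN_iq h m hm i j).1 _ _ _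
    · intro i j t
      exact LIN_mub _ (LIN_iq h m hm i j).2 _ _
  · unfold xi1
    rw [(hmz _ _).1, LIN_mul]
  · unfold xi2
    rw [(hmz _ _).2, LIN_mul]

end Pool.UMD
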